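import Pool.Agent.H98.EX.LTargets
import Pool.Agent.H18.SLN.EXQ

/-!
Module EXZ of the board exa_modules: exponential moments of pairs.
-/

set_option autoImplicit false

open MeasureTheory ProbabilityTheory Filter Topology
open scoped ENNReal
open Pool.Agent.H95 Pool.Agent.H95.Cop
open Pool.Agent.H55.CG (VV Mo)
open Pool.Agent.H98.SLN (sd)
open Pool.Agent.H18.SLN (Ico_as_range)
open Pool.Agent.H98.EX

namespace Pool.Agent.H1.EX

theorem Mo_pos' (ν : Measure ℝ) [IsProbabilityMeasure ν]
    (hν : ∀ t : ℝ, Integrable (fun z => Real.exp (t * z)) ν) (u : ℝ) : 0 < Mo ν u := by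
  unfold Mo
  exact integral_exp_pos (hν _)

theorem Mo_zero' (ν : Measure ℝ) [IsProbabilityMeasure ν] : Mo ν 0 = 1 := by
  unfold Mo
  simp

/-- EXZ -/
theorem pf_EXZ : T_EXZ := by
  intro ν _ hν γ s r hr hr1 hg hs a b a' b' hab hab'
  obtain ⟨h1, h2⟩ := Pool.Agent.H17.CG.pf_PRE ν hν
    (fun c => (if c ∈ Finset.Ico a (b + 1) then γ - s else 0) +
      (if c ∈ Finset.Ico a' (b' + 1) then s else 0)) (max b b' + 1)
  have e : ∀ x : ℕ → ℝ, γ * H x a (b + 1) + s * (H x a' (b' + 1) - H x a (b + 1)) =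
      ∑ c ∈ Finset.range (max b b' + 1), ((if c ∈ Finset.Ico a (b + 1) then γ - s else 0) +
        (if c ∈ Finset.Ico a' (b' + 1) then s else 0)) * x c := by
    intro x
    unfold H
    rw [Ico_as_range (max b b' + 1) a b (Nat.lt_succ_of_le (le_max_left _ _)),
      Ico_as_range (max b b' + 1) a' b' (Nat.lt_succ_of_le (le_max_right _ _)),
      ← Finset.sum_sub_distrib, Finset.mul_sum, Finset.mul_sum, ← Finset.sum_add_distrib]
    refine Finset.sum_congr rfl fun c _ => ?_
    split_ifs <;> ring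
  simp only [e]
  refine ⟨h1, ?_⟩
  rw [h2]
  have hA0 := Mo_pos' ν hν γ
  have h3 : ∏ c ∈ Finset.range (max b b' + 1),
      Mo ν ((if c ∈ Finset.Ico a (b + 1) then γ - s else 0) +
        (if c ∈ Finset.Ico a' (b' + 1) then s else 0)) ≤
      ∏ c ∈ Finset.range (max b b' + 1), ((if c ∈ Finset.Ico a (b + 1) then Mo ν γ else 1) *
        if c ∈ symmDiff (Finset.Ico a (b + 1)) (Finset.Ico a' (b' + 1)) then r else 1) := by
    refine Finset.prod_le_prod (fun c _ => (Mo_pos' ν hν _).le) fun c _ => ?_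
    have hsd := @Finset.mem_symmDiff _ _ (Finset.Ico a (b + 1)) (Finset.Ico a' (b' + 1)) c
    by_cases c1 : c ∈ Finset.Ico a (b + 1) <;> by_cases c2 : c ∈ Finset.Ico a' (b' + 1)
    · rw [if_pos c1, if_pos c2, if_pos c1, if_neg (by rw [hsd]; tauto), mul_one]
      rw [show γ - s + s = γ by ring]
    · rw [if_pos c1, if_neg c2, if_pos c1, if_pos (by rw [hsd]; tauto), add_zero, mul_comm]
      exact hg
    · rw [if_neg c1, if_pos c2, if_neg c1, if_pos (by rw [hsd]; tauto), zero_add, one_mul]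
      exact hs
    · rw [if_neg c1, if_neg c2, if_neg c1, if_neg (by rw [hsd]; tauto), zero_add, one_mul,
        Mo_zero']
  refine h3.trans (le_of_eq ?_)
  rw [Finset.prod_mul_distrib, ← Finset.prod_filter, ← Finset.prod_filter, Finset.prod_const,
    Finset.prod_const]
  have c1 : (Finset.range (max b b' + 1)).filter (fun c => c ∈ Finset.Ico a (b + 1)) =
      Finset.Ico a (b + 1) := by
    ext c
    simp only [Finset.mem_Ico, Finset.mem_filter, Finset.mem_range]
    omega
  have c2 : (Finset.range (max b b' + 1)).filter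
      (fun c => c ∈ symmDiff (Finset.Ico a (b + 1)) (Finset.Ico a' (b' + 1))) =
      symmDiff (Finset.Ico a (b + 1)) (Finset.Ico a' (b' + 1)) := by
    ext c
    simp only [Finset.mem_Ico, Finset.mem_filter, Finset.mem_range, Finset.mem_symmDiff]
    omega
  rw [c1, c2, Nat.card_Ico]
  rfl

end Pool.Agent.H1.EX
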