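import Pool.Agent.H98.EX.PTargets

/-!
# Row PF3 of board exa: decomposition of the renewal sums into three parts
-/

set_option autoImplicit false

open MeasureTheory ProbabilityTheory Filter Topology
open scoped ENNReal
open Pool.Agent.H95 Pool.Agent.H95.Cop
open Pool.Agent.H99.CE (PF PF_zero PF_succ)
open Pool.Agent.H98.EX

namespace Pool.Agent.H1.EX

variable (w : ℕ → (ℕ → ℝ) → ℝ≥0∞)

lemma pf3_sum (s : ℕ) (hs : 1 ≤ s) (x : ℕ → ℝ) :
    PF w s x = ∑ t ∈ Finset.Icc 1 s, w t x * PF w (s - t) (shift t x) := by
  obtain ⟨m, rfl⟩ : ∃ m, s = m + 1 := ⟨s - 1, by omega⟩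
  rw [PF_succ]
  refine Finset.sum_nbij' (fun j => j + 1) (fun t => t - 1) ?_ ?_ ?_ ?_ ?_
  · intro j hj
    rw [Finset.mem_range] at hj
    rw [Finset.mem_Icc]
    omega
  · intro t ht
    rw [Finset.mem_Icc] at ht
    rw [Finset.mem_range]
    omega
  · intro j _
    simp
  · intro t ht
    rw [Finset.mem_Icc] at ht
    show t - 1 + 1 = t
    omega
  · intro j _
    show w (j + 1) x * PF w (m - j) (shift (j + 1) x) =
      w (j + 1) x * PF w (m + 1 - (j + 1)) (shift (j + 1) x)
    rw [show m + 1 - (j + 1) = m - j by omega]

/-- the last renewal point at or before `q` -/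
lemma pf3_last : ∀ s q : ℕ, q < s → ∀ x : ℕ → ℝ,
    PF w s x = ∑ j ∈ Finset.Icc 0 q, PF w j x * GQ w (q - j) (s - j) (shift j x) := by
  intro s
  induction s using Nat.strong_induction_on with
  | _ s ih =>
    intro q hq x
    rw [pf3_sum w s (by omega) x]
    have h1 : Finset.Icc 1 s = Finset.Ioc q s ∪ Finset.Icc 1 q := by
      ext n
      simp only [Finset.mem_union, Finset.mem_Icc, Finset.mem_Ioc]
      omega
    have h2 : Disjoint (Finset.Ioc q s) (Finset.Icc 1 q) := by
      rw [Finset.disjoint_left]
      intro n h3 h4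
      rw [Finset.mem_Ioc] at h3
      rw [Finset.mem_Icc] at h4
      omega
    have h3 : Finset.Icc 0 q = {0} ∪ Finset.Icc 1 q := by
      ext n
      simp only [Finset.mem_union, Finset.mem_Icc, Finset.mem_singleton]
      omega
    have h4 : Disjoint ({0} : Finset ℕ) (Finset.Icc 1 q) := by
      rw [Finset.disjoint_left]
      intro n h3 h4
      rw [Finset.mem_singleton] at h3
      rw [Finset.mem_Icc] at h4
      omega
    rw [h1, Finset.sum_union h2, h3, Finset.sum_union h4, Finset.sum_singleton]
    have h5 : PF w 0 x * GQ w (q - 0) (s - 0) (shift 0 x) =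
        ∑ t ∈ Finset.Ioc q s, w t x * PF w (s - t) (shift t x) := by
      rw [PF_zero, one_mul, shift_zero]
      rfl
    rw [h5]
    congr 1
    have h6 : ∀ t ∈ Finset.Icc 1 q, w t x * PF w (s - t) (shift t x) =
        ∑ j ∈ Finset.Icc t q, w t x * PF w (j - t) (shift t x) *
          GQ w (q - j) (s - j) (shift j x) := by
      intro t ht
      rw [Finset.mem_Icc] at ht
      rw [ih (s - t) (by omega) (q - t) (by omega), Finset.mul_sum]
      refine Finset.sum_nbij' (fun j => t + j) (fun j => j - t) ?_ ?_ ?_ ?_ ?_
      · intro j hj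
        rw [Finset.mem_Icc] at hj ⊢
        omega
      · intro j hj
        rw [Finset.mem_Icc] at hj ⊢
        omega
      · intro j _
        show t + j - t = j
        omega
      · intro j hj
        rw [Finset.mem_Icc] at hj
        show t + (j - t) = j
        omega
      · intro j _
        show w t x * (PF w j (shift t x) * GQ w (q - t - j) (s - t - j) (shift j (shift t x))) =
          w t x * PF w (t + j - t) (shift t x) * GQ w (q - (t + j)) (s - (t + j)) (shift (t + j) x)
        rw [shift_shift, show t + j - t = j by omega, show q - t - j = q - (t + j) by omega,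
          show s - t - j = s - (t + j) by omega, show j + t = t + j by omega, mul_assoc]
    rw [Finset.sum_congr rfl h6, Finset.sum_comm' (t' := Finset.Icc 1 q)
      (s' := fun j => Finset.Icc 1 j) (by
        intro t j
        simp only [Finset.mem_Icc]
        omega)]
    refine Finset.sum_congr rfl fun j hj => ?_
    rw [Finset.mem_Icc] at hj
    rw [← Finset.sum_mul, ← pf3_sum w j hj.1 x]

/-- the first renewal point at or after `p` -/
lemma pf3_first (s p : ℕ) (hp : 1 ≤ p) (hps : p ≤ s) (x : ℕ → ℝ) :
    PF w s x = ∑ i ∈ Finset.Icc p s, GP w p i x * PF w (s - i) (shift i x) := by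
  rw [pf3_last w s (p - 1) (by omega) x]
  have h1 : ∀ t ∈ Finset.Icc 0 (p - 1), PF w t x * GQ w (p - 1 - t) (s - t) (shift t x) =
      ∑ i ∈ Finset.Icc p s, PF w t x * w (i - t) (shift t x) * PF w (s - i) (shift i x) := by
    intro t ht
    rw [Finset.mem_Icc] at ht
    unfold GQ
    rw [Finset.mul_sum]
    refine Finset.sum_nbij' (fun u => t + u) (fun i => i - t) ?_ ?_ ?_ ?_ ?_
    · intro u hu
      rw [Finset.mem_Ioc] at hu
      rw [Finset.mem_Icc]
      omega
    · intro i hi
      rw [Finset.mem_Icc] at hi
      rw [Finset.mem_Ioc]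
      omega
    · intro u _
      show t + u - t = u
      omega
    · intro i hi
      rw [Finset.mem_Icc] at hi
      show t + (i - t) = i
      omega
    · intro u _
      show PF w t x * (w u (shift t x) * PF w (s - t - u) (shift u (shift t x))) =
        PF w t x * w (t + u - t) (shift t x) * PF w (s - (t + u)) (shift (t + u) x)
      rw [shift_shift, show t + u - t = u by omega, show s - t - u = s - (t + u) by omega,
        show u + t = t + u by omega, mul_assoc]
  rw [Finset.sum_congr rfl h1, Finset.sum_comm]
  refine Finset.sum_congr rfl fun i _ => ?_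
  rw [← Finset.sum_mul]
  congr 1
  unfold GP
  refine Finset.sum_congr ?_ fun t _ => rfl
  ext t
  rw [Finset.mem_Icc, Finset.mem_range]
  omega

theorem pf_PF3 : T_PF3 := by
  intro w k hw p q s hp hpq hqs x
  rw [pf3_first w s p hp (by omega) x]
  have h1 : Finset.Ico p (p + k) ⊆ Finset.Icc p s := by
    intro i hi
    rw [Finset.mem_Ico] at hi
    rw [Finset.mem_Icc]
    omega
  rw [← Finset.sum_subset h1]
  · refine Finset.sum_congr rfl fun i hi => ?_
    rw [Finset.mem_Ico] at hi
    rw [pf3_last w (s - i) (q - i) (by omega) (shift i x), Finset.mul_sum]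
    refine Finset.sum_nbij' (fun j => i + j) (fun j => j - i) ?_ ?_ ?_ ?_ ?_
    · intro j hj
      rw [Finset.mem_Icc] at hj ⊢
      omega
    · intro j hj
      rw [Finset.mem_Icc] at hj ⊢
      omega
    · intro j _
      show i + j - i = j
      omega
    · intro j hj
      rw [Finset.mem_Icc] at hj
      show i + (j - i) = j
      omega
    · intro j _
      show GP w p i x * (PF w j (shift i x) * GQ w (q - i - j) (s - i - j)
        (shift j (shift i x))) = GP w p i x * (PF w (i + j - i) (shift i x) *
          GQ w (q - (i + j)) (s - (i + j)) (shift (i + j) x))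
      rw [shift_shift, show i + j - i = j by omega, show q - i - j = q - (i + j) by omega,
        show s - i - j = s - (i + j) by omega, show j + i = i + j by omega]
  · intro i hi hi2
    rw [Finset.mem_Icc] at hi
    rw [Finset.mem_Ico] at hi2
    have h2 : GP w p i x = 0 := by
      unfold GP
      refine Finset.sum_eq_zero fun t ht => ?_
      rw [Finset.mem_range] at ht
      rw [hw (i - t) (shift t x) (by omega), mul_zero]
    rw [h2, zero_mul]

end Pool.Agent.H1.EX
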