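import Pool.Agent.H98.EX.WTargets

/-!
# Row REV of board exa: reversal preserves the product measure
-/

set_option autoImplicit false

open MeasureTheory ProbabilityTheory Filter Topology
open Pool.Agent.H95 Pool.Agent.H95.Cop
open Pool.Agent.H98.EX

namespace Pool.Agent.H1.EX

/-- the involution of the indices -/
def rvi (n i : ℕ) : ℕ := if i < n then n - 1 - i else i

lemma rvi_inj (n : ℕ) : Function.Injective (rvi n) := by
  intro a b h
  unfold rvi at h
  split_ifs at h <;> omega

lemma rv_eq (n : ℕ) : rv n = fun (y : ℕ → ℝ) (i : ℕ) => y (rvi n i) := by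
  funext y i
  unfold rv rvi
  split_ifs <;> rfl

theorem pf_REV : T_REV := by
  intro ϱ _ n
  rw [rv_eq]
  refine ⟨measurable_pi_lambda _ fun i => measurable_pi_apply _, ?_⟩
  exact Measure.map_infinitePi_infinitePi_of_inj (P := fun _ : ℕ => ϱ) (f := rvi n) (rvi_inj n)

end Pool.Agent.H1.EX
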