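import Pool.Agent.H98.EX.WTargets

/-!
# Row WBA of board exa: basic properties of the negative moments
-/

set_option autoImplicit false

open MeasureTheory ProbabilityTheory Filter Topology
open Pool.Agent.H95 Pool.Agent.H95.Cop
open Pool.Agent.H98.EX

namespace Pool.Agent.H1.EX

lemma wb_mH (b : ℕ) : Measurable (fun y : ℕ → ℝ => H y 0 b) := by
  unfold H
  exact Finset.measurable_sum _ fun i _ => measurable_pi_apply i

lemma wb_mVR (n : ℕ) : Measurable (VR n) := by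
  unfold VR
  exact Finset.measurable_sum _ fun i _ => Real.measurable_exp.comp (wb_mH (i + 1)).neg

lemma wb_mVL (n : ℕ) : Measurable (VL n) := by
  unfold VL
  exact Finset.measurable_sum _ fun i _ => Real.measurable_exp.comp (wb_mH (i + 1))

lemma wb_VR0 (n : ℕ) (y : ℕ → ℝ) : 0 ≤ VR n y :=
  Finset.sum_nonneg fun _ _ => (Real.exp_pos _).le

lemma wb_VL0 (n : ℕ) (y : ℕ → ℝ) : 0 ≤ VL n y :=
  Finset.sum_nonneg fun _ _ => (Real.exp_pos _).le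

lemma wb_VRm {n n' : ℕ} (h : n ≤ n') (y : ℕ → ℝ) : VR n y ≤ VR n' y :=
  Finset.sum_le_sum_of_subset_of_nonneg (Finset.range_mono h) fun _ _ _ => (Real.exp_pos _).le

lemma wb_VLm {n n' : ℕ} (h : n ≤ n') (y : ℕ → ℝ) : VL n y ≤ VL n' y :=
  Finset.sum_le_sum_of_subset_of_nonneg (Finset.range_mono h) fun _ _ _ => (Real.exp_pos _).le

lemma wb_le1 {x p : ℝ} (hx : 1 ≤ x) (hp : 0 ≤ p) : x ^ (-p) ≤ 1 :=
  Real.rpow_le_one_of_one_le_of_nonpos hx (by linarith)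

lemma wb_pos {x : ℝ} (p : ℝ) (hx : 1 ≤ x) : 0 < x ^ (-p) :=
  Real.rpow_pos_of_pos (by linarith) _

lemma wb_anti {x y p : ℝ} (hx : 1 ≤ x) (hxy : x ≤ y) (hp : 0 ≤ p) : y ^ (-p) ≤ x ^ (-p) :=
  Real.rpow_le_rpow_of_nonpos (by linarith) hxy (by linarith)

lemma wb_mQ (p : ℝ) (a b : ℕ) :
    Measurable (fun q : (ℕ → ℝ) × (ℕ → ℝ) => (1 + VR a q.1 + VL b q.2) ^ (-p)) :=
  ((measurable_const.add ((wb_mVR a).comp measurable_fst)).add
    ((wb_mVL b).comp measurable_snd)).pow_const _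

lemma wb_mh (n : ℕ) (q : ℝ) : Measurable (fun y : ℕ → ℝ => (1 + VR n y) ^ (-q)) :=
  (measurable_const.add (wb_mVR n)).pow_const _

lemma wb_h1 (n : ℕ) (y : ℕ → ℝ) : 1 ≤ 1 + VR n y := by linarith [wb_VR0 n y]

lemma wb_q1 (a b : ℕ) (z y : ℕ → ℝ) : 1 ≤ 1 + VR a z + VL b y := by
  linarith [wb_VR0 a z, wb_VL0 b y]

lemma wb_hint (ϱ : Measure ℝ) [IsProbabilityMeasure ϱ] (n : ℕ) {q : ℝ} (hq : 0 ≤ q) :
    Integrable (fun y : ℕ → ℝ => (1 + VR n y) ^ (-q)) (iid ϱ) := by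
  refine Integrable.of_bound (wb_mh n q).aestronglyMeasurable 1 (Eventually.of_forall fun y => ?_)
  rw [Real.norm_eq_abs, abs_of_pos (wb_pos q (wb_h1 n y))]
  exact wb_le1 (wb_h1 n y) hq

lemma wb_iint (ϱ : Measure ℝ) [IsProbabilityMeasure ϱ] (a b : ℕ) (z : ℕ → ℝ) {q : ℝ}
    (hq : 0 ≤ q) : Integrable (fun y : ℕ → ℝ => (1 + VR a z + VL b y) ^ (-q)) (iid ϱ) := by
  refine Integrable.of_bound ((wb_mQ q a b).comp
    (measurable_const.prodMk measurable_id)).aestronglyMeasurable 1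
    (Eventually.of_forall fun y => ?_)
  show ‖(1 + VR a z + VL b y) ^ (-q)‖ ≤ 1
  rw [Real.norm_eq_abs, abs_of_pos (wb_pos q (wb_q1 a b z y))]
  exact wb_le1 (wb_q1 a b z y) hq

lemma wb_in0 (ϱ : Measure ℝ) [IsProbabilityMeasure ϱ] (a b : ℕ) (z : ℕ → ℝ) (q : ℝ) :
    0 ≤ ∫ y : ℕ → ℝ, (1 + VR a z + VL b y) ^ (-q) ∂(iid ϱ) :=
  integral_nonneg fun y => (wb_pos q (wb_q1 a b z y)).le

lemma wb_inle (ϱ : Measure ℝ) [IsProbabilityMeasure ϱ] (a b : ℕ) (z : ℕ → ℝ) {q : ℝ}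
    (hq : 0 ≤ q) :
    ∫ y : ℕ → ℝ, (1 + VR a z + VL b y) ^ (-q) ∂(iid ϱ) ≤ (1 + VR a z) ^ (-q) := by
  have h1 : ∫ _ : ℕ → ℝ, (1 + VR a z) ^ (-q) ∂(iid ϱ) = (1 + VR a z) ^ (-q) := by simp
  rw [← h1]
  exact integral_mono (wb_iint ϱ a b z hq) (integrable_const _) fun y =>
    wb_anti (wb_h1 a z) (by linarith [wb_VL0 b y]) hq

lemma wb_oint (ϱ ϱ' : Measure ℝ) [IsProbabilityMeasure ϱ] [IsProbabilityMeasure ϱ'] (a b : ℕ)
    {q : ℝ} (hq : 0 ≤ q) :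
    Integrable (fun z : ℕ → ℝ => ∫ y : ℕ → ℝ, (1 + VR a z + VL b y) ^ (-q) ∂(iid ϱ))
      (iid ϱ') := by
  refine Integrable.of_bound (StronglyMeasurable.integral_prod_right
    (f := fun (z : ℕ → ℝ) (y : ℕ → ℝ) => (1 + VR a z + VL b y) ^ (-q))
    (wb_mQ q a b).stronglyMeasurable).aestronglyMeasurable 1 (Eventually.of_forall fun z => ?_)
  rw [Real.norm_eq_abs, abs_of_nonneg (wb_in0 ϱ a b z q)]
  exact (wb_inle ϱ a b z hq).trans (wb_le1 (wb_h1 a z) hq)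

theorem pf_WBA : T_WBA := by
  intro ρ _ hρ θ p hp
  haveI : IsProbabilityMeasure (ρ.tilted fun t => θ * t) := isProbabilityMeasure_tilted (hρ θ)
  refine ⟨fun a b => ⟨integral_nonneg fun z => wb_in0 ρ a b z p, ?_⟩, fun a a' b b' h1 h2 => ?_,
    fun n => ⟨?_, ?_⟩, fun n n' h => ?_, fun n p' h => ?_, fun a b => ?_⟩
  · have h1 : ∫ _ : ℕ → ℝ, (1 : ℝ) ∂(iid (ρ.tilted fun t => θ * t)) = 1 := by simp
    rw [← h1]
    exact integral_mono (wb_oint ρ _ a b hp) (integrable_const _) fun z =>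
      (wb_inle ρ a b z hp).trans (wb_le1 (wb_h1 a z) hp)
  · refine integral_mono (wb_oint ρ _ a' b' hp) (wb_oint ρ _ a b hp) fun z => ?_
    exact integral_mono (wb_iint ρ a' b' z hp) (wb_iint ρ a b z hp) fun y =>
      wb_anti (wb_q1 a b z y) (by linarith [wb_VRm h1 z, wb_VLm h2 y]) hp
  · unfold hh
    rw [integral_pos_iff_support_of_nonneg (fun y => (wb_pos p (wb_h1 n y)).le)
      (wb_hint ρ n hp)]
    have h1 : Function.support (fun y : ℕ → ℝ => (1 + VR n y) ^ (-p)) = Set.univ :=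
      Set.eq_univ_of_forall fun y => (wb_pos p (wb_h1 n y)).ne'
    rw [h1]
    simp
  · have h1 : ∫ _ : ℕ → ℝ, (1 : ℝ) ∂(iid ρ) = 1 := by simp
    rw [← h1]
    exact integral_mono (wb_hint ρ n hp) (integrable_const _) fun y => wb_le1 (wb_h1 n y) hp
  · exact integral_mono (wb_hint ρ n' hp) (wb_hint ρ n hp) fun y =>
      wb_anti (wb_h1 n y) (by linarith [wb_VRm h y]) hp
  · exact integral_mono (wb_hint ρ n (hp.trans h)) (wb_hint ρ n hp) fun y =>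
      Real.rpow_le_rpow_of_exponent_le (wb_h1 n y) (by linarith)
  · exact integral_mono (wb_oint ρ _ a b hp) (wb_hint _ a hp) fun z => wb_inle ρ a b z hp

end Pool.Agent.H1.EX
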